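import Pool.Agent.Y314.CT.Stm

set_option autoImplicit false

/-!
# CT-REL: the linear map of the centres
-/

namespace Pool.Agent.Y785.CT

open Pool.Agent.Y314.CT

/-- central elements -/
def zc (t : ℝ) (z : ZV) : NT t := ⟨0, z⟩

theorem zc_mul (t : ℝ) (z z' : ZV) : zc t z * zc t z' = zc t (z + z') := by
  refine ext' ?_ ?_
  · simp [zc]
  · simp [zc, om_zero_left]

theorem zc_zero (t : ℝ) : zc t 0 = 1 := rfl

theorem zc_inj {t : ℝ} {z z' : ZV} (h : zc t z = zc t z') : z = z' := congrArg NT.z h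

theorem nn_zc_sq (t : ℝ) (z : ZV) : nn (zc t z) ^ 2 ≤ ‖z‖ := by
  have h1 : nn (zc t z) ≤ Real.sqrt ‖z‖ := by
    refine nn_le (Real.sqrt_nonneg _) ?_ ?_
    · show ‖(0 : HV)‖ ≤ _
      rw [norm_zero]
      exact Real.sqrt_nonneg _
    · show ‖z‖ ≤ _
      rw [Real.sq_sqrt (norm_nonneg _)]
      have h2 : 0 ≤ |t| := abs_nonneg t
      nlinarith [norm_nonneg z, mul_nonneg h2 (norm_nonneg z)]
  calc nn (zc t z) ^ 2 ≤ Real.sqrt ‖z‖ ^ 2 := pow_le_pow_left₀ (nn_nonneg _) h1 2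
    _ = ‖z‖ := Real.sq_sqrt (norm_nonneg _)

theorem dd_zc (t : ℝ) (z z' : ZV) : dd (zc t z) (zc t z') = nn (zc t (z' - z)) := by
  unfold dd
  congr 1
  refine ext' ?_ ?_
  · simp [zc]
  · rw [inv_mul_z]
    simp [zc, om_zero_left]

theorem van {w : ZV} {C : ℝ} (h : ∀ n : ℕ, 1 ≤ n → (n : ℝ) ^ 2 * ‖w‖ ≤ C * n) : w = 0 := by
  by_contra hw
  have hw0 : 0 < ‖w‖ := norm_pos_iff.2 hw
  obtain ⟨n, hn⟩ := exists_nat_gt (C / ‖w‖)
  have h1 := h (n + 1) (by omega)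
  have h2 : (0 : ℝ) < (n : ℝ) + 1 := by positivity
  rw [div_lt_iff₀ hw0] at hn
  push_cast at h1
  have h3 : ((n : ℝ) + 1) * (((n : ℝ) + 1) * ‖w‖ - C) ≤ 0 := by nlinarith
  have h4 : 0 < ((n : ℝ) + 1) * ‖w‖ - C := by nlinarith
  exact absurd h3 (not_le.2 (mul_pos h2 h4))

section

variable {t s : ℝ} {Φ : NT t → NT s} {σ : Fin 4 → Bool → HV} {Z : ℝ}

theorem est (hE : ComEst t s Φ σ Z) (h : NT t) (w : ZV) (hw : Φ h = zc s w) (i : Fin 4)
    (p q : ℤ) : ∃ ζ : ZV, Φ (h * zc t (((p : ℝ) * (q : ℝ)) • cc t i)) = zc s (w + ζ) ∧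
      ‖ζ - ((p : ℝ) * (q : ℝ)) • om s (σ i true) (σ i false)‖ ≤ Z * (|(p : ℝ)| + |(q : ℝ)|) := by
  obtain ⟨ζ, h1, h2⟩ := hE h i true i false p q
  refine ⟨ζ, ?_, h2⟩
  rw [om_ev_same, hw] at h1
  exact h1.trans (zc_mul s w ζ)

theorem est1 (hE : ComEst t s Φ σ Z) (h1 : Φ 1 = 1) (i : Fin 4)
    (p q : ℤ) : ∃ ζ : ZV, Φ (zc t (((p : ℝ) * (q : ℝ)) • cc t i)) = zc s ζ ∧
      ‖ζ - ((p : ℝ) * (q : ℝ)) • om s (σ i true) (σ i false)‖ ≤ Z * (|(p : ℝ)| + |(q : ℝ)|) := by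
  obtain ⟨ζ, h2, h3⟩ := est hE 1 0 h1 i p q
  rw [one_mul, zero_add] at h2
  exact ⟨ζ, h2, h3⟩

theorem est2 (hE : ComEst t s Φ σ Z) (h1 : Φ 1 = 1) (i j : Fin 4)
    (p q p' q' : ℤ) : ∃ ζ ζ' : ZV,
      Φ (zc t (((p : ℝ) * (q : ℝ)) • cc t i + ((p' : ℝ) * (q' : ℝ)) • cc t j)) =
        zc s (ζ + ζ') ∧
      ‖ζ - ((p : ℝ) * (q : ℝ)) • om s (σ i true) (σ i false)‖ ≤ Z * (|(p : ℝ)| + |(q : ℝ)|) ∧
      ‖ζ' - ((p' : ℝ) * (q' : ℝ)) • om s (σ j true) (σ j false)‖ ≤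
        Z * (|(p' : ℝ)| + |(q' : ℝ)|) := by
  obtain ⟨ζ, h2, h3⟩ := est1 hE h1 i p q
  obtain ⟨ζ', h4, h5⟩ := est hE _ ζ h2 j p' q'
  rw [zc_mul] at h4
  exact ⟨ζ, ζ', h4, h3, h5⟩

theorem rel_zero (hE : ComEst t s Φ σ Z) (i : Fin 4) (b : Bool) (j : Fin 4)
    (b' : Bool) (h0 : om t (ev i b) (ev j b') = 0) : om s (σ i b) (σ j b') = 0 := by
  refine van (C := 2 * Z) fun n _ => ?_
  obtain ⟨ζ, h2, h3⟩ := hE 1 i b j b' n n
  rw [h0, smul_zero] at h2
  have h4 : (⟨0, 0⟩ : NT t) = 1 := rfl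
  rw [h4, mul_one] at h2
  have h5 : (⟨0, ζ⟩ : NT s) = 1 := (mul_eq_left (a := Φ 1)).1 h2.symm
  have h6 : ζ = 0 := congrArg NT.z h5
  rw [h6, zero_sub, norm_neg, norm_smul] at h3
  push_cast at h3
  rw [Real.norm_of_nonneg (by positivity), abs_of_nonneg (a := (n : ℝ)) (Nat.cast_nonneg n)] at h3
  calc (n : ℝ) ^ 2 * ‖om s (σ i b) (σ j b')‖ = n * n * ‖om s (σ i b) (σ j b')‖ := by ring
    _ ≤ Z * (n + n) := h3
    _ = 2 * Z * n := by ring

end

theorem t_REL : S_REL := by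
  intro t s Φ K hT σ Z hZ hE
  obtain ⟨d, hd⟩ : ∃ d : Fin 4 → ZV, ∀ i, d i = om s (σ i true) (σ i false) := ⟨_, fun _ => rfl⟩
  have e1 := fun i p q => est1 hE hT.one i p q
  have e2 := fun i j p q p' q' => est2 hE hT.one i j p q p' q'
  simp only [← hd] at e1 e2
  have hK := hT.pos
  -- (ii)
  have h2 : d 2 = d 0 + d 1 := by
    have h0 : d 2 - (d 0 + d 1) = 0 := by
      refine van (C := 6 * Z) fun n _ => ?_
      obtain ⟨ζ, a1, a2⟩ := e1 2 n n
      obtain ⟨ζ', ζ'', a3, a4, a5⟩ := e2 0 1 n n n n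
      have a6 : (((n : ℤ) : ℝ) * ((n : ℤ) : ℝ)) • cc t 0 + (((n : ℤ) : ℝ) * ((n : ℤ) : ℝ)) • cc t 1 =
          (((n : ℤ) : ℝ) * ((n : ℤ) : ℝ)) • cc t 2 := by
        rw [← smul_add]
        congr 1
        ext <;> simp [cc]
      rw [a6, a1] at a3
      have a7 : ζ = ζ' + ζ'' := zc_inj a3
      push_cast at a2 a4 a5
      rw [abs_of_nonneg (a := (n : ℝ)) (Nat.cast_nonneg n)] at a2 a4 a5
      have a8 : ((n : ℝ) * n) • (d 2 - (d 0 + d 1)) = -(ζ - ((n : ℝ) * n) • d 2) +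
          (ζ' - ((n : ℝ) * n) • d 0) + (ζ'' - ((n : ℝ) * n) • d 1) := by
        rw [a7, smul_sub, smul_add]
        abel
      have a9 : ‖((n : ℝ) * n) • (d 2 - (d 0 + d 1))‖ ≤ Z * (n + n) + Z * (n + n) + Z * (n + n) := by
        rw [a8]
        refine (norm_add_le _ _).trans (add_le_add ((norm_add_le _ _).trans
          (add_le_add ?_ a4)) a5)
        rwa [norm_neg]
      rw [norm_smul, Real.norm_of_nonneg (by positivity)] at a9
      calc (n : ℝ) ^ 2 * ‖d 2 - (d 0 + d 1)‖ = n * n * ‖d 2 - (d 0 + d 1)‖ := by ring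
        _ ≤ _ := a9
        _ = _ := by ring
    exact sub_eq_zero.1 h0
  -- (iii)
  have h3 : d 3 = d 0 + t • d 1 := by
    have h0 : d 3 - (d 0 + t • d 1) = 0 := by
      refine van (C := 4 * Z + Z * (|t| + 2) + (3 + |s|) * K ^ 2 + ‖d 1‖) fun n hn => ?_
      have hn1 : (1 : ℝ) ≤ n := by exact_mod_cast hn
      obtain ⟨q, hq⟩ : ∃ q : ℤ, q = ⌊t * n⌋ := ⟨_, rfl⟩
      have q1 : (q : ℝ) ≤ t * n := by rw [hq]; exact Int.floor_le _
      have q2 : t * n < q + 1 := by rw [hq]; exact Int.lt_floor_add_one _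
      have q3 : |(q : ℝ)| ≤ (|t| + 1) * n := by
        have b1 : |t * n - q| ≤ 1 := by
          rw [abs_of_nonneg (by linarith)]
          linarith
        have b2 : |(q : ℝ)| ≤ |t * n| + |t * n - q| := by
          have b3 : (q : ℝ) = t * n - (t * n - q) := by ring
          calc |(q : ℝ)| = |t * n - (t * n - q)| := by rw [← b3]
            _ ≤ _ := abs_sub _ _
        rw [abs_mul, abs_of_nonneg (a := (n : ℝ)) (Nat.cast_nonneg n)] at b2
        linarith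
      obtain ⟨ζ, a1, a2⟩ := e1 3 n n
      obtain ⟨ζ', ζ'', a3, a4, a5⟩ := e2 0 1 n n n q
      push_cast at a1 a2 a3 a4 a5
      rw [abs_of_nonneg (a := (n : ℝ)) (Nat.cast_nonneg n)] at a2 a4 a5
      -- the two points
      have a6 := hT.up (zc t (((n : ℝ) * n) • cc t 3))
        (zc t (((n : ℝ) * n) • cc t 0 + ((n : ℝ) * q) • cc t 1))
      rw [a1, a3, dd_zc, dd_zc] at a6
      have a7 : ((n : ℝ) * n) • cc t 0 + ((n : ℝ) * q) • cc t 1 - ((n : ℝ) * n) • cc t 3 =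
          (0, (n : ℝ) * q - n * n * t) := by
        ext <;> simp [cc]
      have a8 : ‖((0, (n : ℝ) * q - n * n * t) : ZV)‖ ≤ n := by
        have b1 : ‖((0, (n : ℝ) * q - n * n * t) : ZV)‖ = |(n : ℝ) * q - n * n * t| := by
          simp [Prod.norm_def]
        rw [b1]
        have b2 : (n : ℝ) * q - n * n * t = -(n * (t * n - q)) := by ring
        rw [b2, abs_neg, abs_of_nonneg (mul_nonneg (Nat.cast_nonneg n) (by linarith))]
        nlinarith
      have a9 : nn (zc t (((n : ℝ) * n) • cc t 0 + ((n : ℝ) * q) • cc t 1 -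
          ((n : ℝ) * n) • cc t 3)) ^ 2 ≤ n := by
        refine (nn_zc_sq _ _).trans ?_
        rw [a7]
        exact a8
      have a10 : nn (zc s (ζ' + ζ'' - ζ)) ^ 2 ≤ K ^ 2 * n := by
        calc nn (zc s (ζ' + ζ'' - ζ)) ^ 2 ≤ _ := pow_le_pow_left₀ (nn_nonneg _) a6 2
          _ = K ^ 2 * _ := mul_pow _ _ 2
          _ ≤ _ := mul_le_mul_of_nonneg_left a9 (by positivity)
      have a11 : ‖ζ' + ζ'' - ζ‖ ≤ (3 + |s|) * (K ^ 2 * n) :=
        (norm_z_le (zc s (ζ' + ζ'' - ζ))).trans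
          (mul_le_mul_of_nonneg_left a10 (bt_pos s).le)
      have a12 : ((n : ℝ) * n) • (d 3 - (d 0 + t • d 1)) = -(ζ - ((n : ℝ) * n) • d 3) -
          (ζ' + ζ'' - ζ) + (ζ' - ((n : ℝ) * n) • d 0) + (ζ'' - ((n : ℝ) * q) • d 1) +
            ((n : ℝ) * q - n * n * t) • d 1 := by
        rw [smul_sub, smul_add, smul_smul, sub_smul]
        abel
      have a13 : ‖((n : ℝ) * q - n * n * t) • d 1‖ ≤ n * ‖d 1‖ := by
        rw [norm_smul]
        refine mul_le_mul_of_nonneg_right ?_ (norm_nonneg _)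
        refine le_trans ?_ a8
        simp [Prod.norm_def]
      have a14 : ‖((n : ℝ) * n) • (d 3 - (d 0 + t • d 1))‖ ≤
          Z * (n + n) + (3 + |s|) * (K ^ 2 * n) + Z * (n + n) + Z * (n + |(q : ℝ)|) +
            n * ‖d 1‖ := by
        rw [a12]
        refine (norm_add_le _ _).trans (add_le_add ((norm_add_le _ _).trans
          (add_le_add ((norm_add_le _ _).trans (add_le_add ((norm_sub_le _ _).trans
            (add_le_add ?_ a11)) a4)) a5)) a13)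
        rwa [norm_neg]
      rw [norm_smul, Real.norm_of_nonneg (by positivity)] at a14
      have a15 : Z * (n + |(q : ℝ)|) ≤ Z * (|t| + 2) * n := by
        have b1 : (n : ℝ) + |(q : ℝ)| ≤ (|t| + 2) * n := by linarith
        calc Z * (n + |(q : ℝ)|) ≤ Z * ((|t| + 2) * n) := mul_le_mul_of_nonneg_left b1 hZ
          _ = _ := by ring
      calc (n : ℝ) ^ 2 * ‖d 3 - (d 0 + t • d 1)‖ = n * n * ‖d 3 - (d 0 + t • d 1)‖ := by ring
        _ ≤ _ := a14
        _ ≤ Z * (n + n) + (3 + |s|) * (K ^ 2 * n) + Z * (n + n) + Z * (|t| + 2) * n +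
            n * ‖d 1‖ := by linarith
        _ = _ := by ring
    exact sub_eq_zero.1 h0
  -- (iv)
  obtain ⟨M, hM⟩ : ∃ M : ZV →ₗ[ℝ] ZV, ∀ z, M z = z.1 • d 0 + z.2 • d 1 :=
    ⟨(LinearMap.fst ℝ ℝ ℝ).smulRight (d 0) + (LinearMap.snd ℝ ℝ ℝ).smulRight (d 1),
      fun z => by simp⟩
  refine ⟨M, ?_, ?_⟩
  · rw [injective_iff_map_eq_zero]
    rintro ⟨a, b⟩ hab
    rw [hM] at hab
    dsimp only at hab
    obtain ⟨C, hC⟩ : ∃ C : ℝ, C = (3 + |t|) * (K ^ 2 * (Z * (|a| + 2) + Z * (|b| + 2) +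
      (‖d 0‖ + ‖d 1‖))) := ⟨_, rfl⟩
    have hmain : ∀ n : ℕ, 1 ≤ n → |a| * n ≤ C + 1 ∧ |b| * n ≤ C + 1 := by
      intro n hn
      have hn1 : (1 : ℝ) ≤ n := by exact_mod_cast hn
      have hn0 : (0 : ℝ) < n := by linarith
      have hfl : ∀ a : ℝ, ∃ q : ℤ, |(q : ℝ) - a * n| ≤ 1 ∧ |(q : ℝ)| ≤ (|a| + 1) * n ∧
          |a| * n ≤ |(q : ℝ)| + 1 := by
        intro a
        have q1 : ((⌊a * n⌋ : ℤ) : ℝ) ≤ a * n := Int.floor_le _
        have q2 : a * n < (⌊a * n⌋ : ℤ) + 1 := Int.lt_floor_add_one _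
        have b1 : |((⌊a * n⌋ : ℤ) : ℝ) - a * n| ≤ 1 := by
          rw [abs_le]
          constructor <;> linarith
        have b2 : |a * n| = |a| * n := by
          rw [abs_mul, abs_of_nonneg (a := (n : ℝ)) (Nat.cast_nonneg n)]
        have b3 := abs_sub_abs_le_abs_sub ((⌊a * n⌋ : ℤ) : ℝ) (a * n)
        have b4 := abs_sub_abs_le_abs_sub (a * n) ((⌊a * n⌋ : ℤ) : ℝ)
        rw [abs_sub_comm] at b4
        refine ⟨⌊a * n⌋, b1, ?_, ?_⟩
        · rw [b2] at b3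
          linarith
        · rw [b2] at b4
          linarith
      obtain ⟨q1, a1, a2, a3⟩ := hfl a
      obtain ⟨q2, b1, b2, b3⟩ := hfl b
      obtain ⟨ζ', ζ'', c1, c2, c3⟩ := e2 0 1 n q1 n q2
      push_cast at c1 c2 c3
      rw [abs_of_nonneg (a := (n : ℝ)) (Nat.cast_nonneg n)] at c2 c3
      have c4 : ζ' + ζ'' = (ζ' - ((n : ℝ) * q1) • d 0) + (ζ'' - ((n : ℝ) * q2) • d 1) +
          ((n : ℝ) * (q1 - a * n)) • d 0 + ((n : ℝ) * (q2 - b * n)) • d 1 := by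
        have c5 : ((n : ℝ) * (q1 - a * n)) • d 0 + ((n : ℝ) * (q2 - b * n)) • d 1 =
            ((n : ℝ) * q1) • d 0 + ((n : ℝ) * q2) • d 1 - ((n : ℝ) * n) • (a • d 0 + b • d 1) := by
          rw [smul_add, smul_smul, smul_smul, mul_sub, mul_sub, sub_smul, sub_smul]
          have c6 : (n : ℝ) * (a * n) = n * n * a := by ring
          have c7 : (n : ℝ) * (b * n) = n * n * b := by ring
          rw [c6, c7]
          abel
        rw [add_assoc ((ζ' - ((n : ℝ) * q1) • d 0) + (ζ'' - ((n : ℝ) * q2) • d 1)), c5, hab,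
          smul_zero]
        abel
      have c8 : ‖((n : ℝ) * (q1 - a * n)) • d 0‖ ≤ n * ‖d 0‖ := by
        rw [norm_smul, norm_mul, Real.norm_of_nonneg (Nat.cast_nonneg n), Real.norm_eq_abs,
          mul_assoc]
        refine mul_le_mul_of_nonneg_left ?_ (Nat.cast_nonneg n)
        exact mul_le_of_le_one_left (norm_nonneg _) a1
      have c9 : ‖((n : ℝ) * (q2 - b * n)) • d 1‖ ≤ n * ‖d 1‖ := by
        rw [norm_smul, norm_mul, Real.norm_of_nonneg (Nat.cast_nonneg n), Real.norm_eq_abs,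
          mul_assoc]
        refine mul_le_mul_of_nonneg_left ?_ (Nat.cast_nonneg n)
        exact mul_le_of_le_one_left (norm_nonneg _) b1
      have c10 : ‖ζ' + ζ''‖ ≤ (Z * (|a| + 2) + Z * (|b| + 2) + (‖d 0‖ + ‖d 1‖)) * n := by
        have f1 : ‖ζ' + ζ''‖ ≤ Z * (n + |(q1 : ℝ)|) + Z * (n + |(q2 : ℝ)|) + n * ‖d 0‖ +
            n * ‖d 1‖ := by
          rw [c4]
          exact (norm_add_le _ _).trans (add_le_add ((norm_add_le _ _).trans
            (add_le_add ((norm_add_le _ _).trans (add_le_add c2 c3)) c8)) c9)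
        have f2 : Z * (n + |(q1 : ℝ)|) ≤ Z * ((|a| + 2) * n) :=
          mul_le_mul_of_nonneg_left (by linarith) hZ
        have f3 : Z * (n + |(q2 : ℝ)|) ≤ Z * ((|b| + 2) * n) :=
          mul_le_mul_of_nonneg_left (by linarith) hZ
        calc _ ≤ _ := f1
          _ ≤ Z * ((|a| + 2) * n) + Z * ((|b| + 2) * n) + n * ‖d 0‖ + n * ‖d 1‖ := by linarith
          _ = _ := by ring
      -- the lower bound
      have c11 := hT.lo 1 (zc t (((n : ℝ) * q1) • cc t 0 + ((n : ℝ) * q2) • cc t 1))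
      rw [hT.one, c1, ← zc_zero t, ← zc_zero s, dd_zc, dd_zc, sub_zero, sub_zero] at c11
      have c12 : nn (zc t (((n : ℝ) * q1) • cc t 0 + ((n : ℝ) * q2) • cc t 1)) ^ 2 ≤
          K ^ 2 * ((Z * (|a| + 2) + Z * (|b| + 2) + (‖d 0‖ + ‖d 1‖)) * n) := by
        calc _ ≤ (K * nn (zc s (ζ' + ζ''))) ^ 2 := pow_le_pow_left₀ (nn_nonneg _) c11 2
          _ = K ^ 2 * nn (zc s (ζ' + ζ'')) ^ 2 := mul_pow _ _ 2
          _ ≤ _ := mul_le_mul_of_nonneg_left ((nn_zc_sq _ _).trans c10) (by positivity)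
      have c13 : ‖((n : ℝ) * q1) • cc t 0 + ((n : ℝ) * q2) • cc t 1‖ ≤ C * n := by
        calc _ ≤ _ := norm_z_le (zc t (((n : ℝ) * q1) • cc t 0 + ((n : ℝ) * q2) • cc t 1))
          _ ≤ _ := mul_le_mul_of_nonneg_left c12 (bt_pos t).le
          _ = _ := by rw [hC]; ring
      have c14 : ((n : ℝ) * q1) • cc t 0 + ((n : ℝ) * q2) • cc t 1 =
          ((n : ℝ) * q1, (n : ℝ) * q2) := by
        ext <;> simp [cc]
      rw [c14] at c13
      have c15 : |(n : ℝ) * q1| ≤ C * n := (norm_fst_le (((n : ℝ) * q1, (n : ℝ) * q2) : ZV)).trans c13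
      have c16 : |(n : ℝ) * q2| ≤ C * n := (norm_snd_le (((n : ℝ) * q1, (n : ℝ) * q2) : ZV)).trans c13
      rw [abs_mul, abs_of_nonneg (a := (n : ℝ)) (Nat.cast_nonneg n), mul_comm] at c15 c16
      have c17 := le_of_mul_le_mul_right c15 hn0
      have c18 := le_of_mul_le_mul_right c16 hn0
      exact ⟨by linarith, by linarith⟩
    have hz : ∀ a : ℝ, (∀ n : ℕ, 1 ≤ n → |a| * n ≤ C + 1) → a = 0 := by
      intro a ha
      by_contra h0
      have h1 : 0 < |a| := abs_pos.2 h0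
      obtain ⟨n, hn⟩ := exists_nat_gt ((C + 1) / |a|)
      rw [div_lt_iff₀ h1] at hn
      have h4 := ha (n + 1) (by omega)
      push_cast at h4
      nlinarith
    have ha0 := hz a fun n hn => (hmain n hn).1
    have hb0 := hz b fun n hn => (hmain n hn).2
    rw [ha0, hb0]
    rfl
  · -- (v)
    have hMc : ∀ i, M (cc t i) = d i := by
      intro i
      rw [hM]
      fin_cases i
      · simp [cc]
      · simp [cc]
      · simp [cc, h2]
      · simp [cc, h3]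
    intro i b j b'
    by_cases hij : i = j
    · subst hij
      cases b <;> cases b'
      · rw [om_self, om_self, map_zero]
      · rw [om_swap, om_swap (ev i true), map_neg, om_ev_same, hMc, hd]
      · rw [om_ev_same, hMc, hd]
      · rw [om_self, om_self, map_zero]
    · rw [om_ev_ne hij, map_zero]
      exact rel_zero hE i b j b' (om_ev_ne hij b b')

end Pool.Agent.Y785.CT
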